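import Pool.Agent.helper53.BND.SpecT

/-! # Project bnd: row TGF -/

set_option autoImplicit false

open scoped Topology
open Finset Filter

namespace Pool.Agent.BND

open Pool.Agent.CZ Pool.Agent.PV Pool.Agent.PVH

/-- the function of the row -/
noncomputable def TGF_F (l : Lv) (g : ℕ → ℝ) (y : Am) : ℝ :=
  ∑ v ∈ range l.n, ∑ j ∈ range (l.h v), g v * (y (v, j)).re

lemma TGF_add (l : Lv) (g : ℕ → ℝ) (y z : Am) : TGF_F l g (y + z) = TGF_F l g y + TGF_F l g z := by
  unfold TGF_F
  rw [← Finset.sum_add_distrib]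
  refine Finset.sum_congr rfl fun v _ => ?_
  rw [← Finset.sum_add_distrib]
  refine Finset.sum_congr rfl fun j _ => ?_
  rw [← mul_add]
  rfl

lemma TGF_smul (l : Lv) (g : ℕ → ℝ) (a : ℝ) (y : Am) : TGF_F l g ((a : ℂ) • y) = a * TGF_F l g y := by
  unfold TGF_F
  rw [Finset.mul_sum]
  refine Finset.sum_congr rfl fun v _ => ?_
  rw [Finset.mul_sum]
  refine Finset.sum_congr rfl fun j _ => ?_
  simp only [Pi.smul_apply, smul_eq_mul, Complex.re_ofReal_mul]
  ring

lemma TGF_single (l : Lv) (g : ℕ → ℝ) (a j : ℕ) (ha : a < l.n) (hj : j < l.h a) :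
    TGF_F l g (Pi.single (a, j) 1) = g a := by
  unfold TGF_F
  rw [Finset.sum_eq_single_of_mem a (Finset.mem_range.2 ha)]
  · rw [Finset.sum_eq_single_of_mem j (Finset.mem_range.2 hj)]
    · simp
    · intro b _ hb
      rw [Pi.single_eq_of_ne (by simpa using hb)]
      simp
  · intro b _ hb
    refine Finset.sum_eq_zero fun i _ => ?_
    rw [Pi.single_eq_of_ne (by simp [hb])]
    simp

lemma TGF_out (l : Lv) (g : ℕ → ℝ) (e j : ℕ) (c : ℂ) (he : l.n ≤ e) :
    TGF_F l g (Pi.single (e, j) c) = 0 := by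
  unfold TGF_F
  refine Finset.sum_eq_zero fun v hv => Finset.sum_eq_zero fun i _ => ?_
  have : v ≠ e := ne_of_lt (lt_of_lt_of_le (Finset.mem_range.1 hv) he)
  rw [Pi.single_eq_of_ne (by simp [this])]
  simp

theorem TGF (hFLV : FLV_stmt) : TGF_stmt := by
  intro l hl g C hg
  refine ⟨TGF_F l g, ?_, ?_, ?_⟩
  · unfold TGF_F
    refine continuous_finsetSum _ fun v _ => continuous_finsetSum _ fun j _ => ?_
    exact continuous_const.mul (Complex.continuous_re.comp (continuous_apply _))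
  · rintro y ⟨e, s, i, he, hs, hi, rfl⟩
    unfold emb
    split_ifs with hen
    · rw [TGF_single l g e i hen hi]
      exact hg e hen
    · push Not at hen
      have hq : ∀ b, (fl l.h (l.W e b) i).2 < l.h (fl l.h (l.W e b) i).1 ∧ (fl l.h (l.W e b) i).1 < l.n := by
        intro b
        have h1 : i < ((l.W e b).map l.h).sum := by rw [hl.ht e he b]; exact hi
        obtain ⟨h2, P, Q, h3, -⟩ := hFLV l.h (l.W e b) i h1
        refine ⟨h2, hl.mem e he b _ ?_⟩
        generalize (fl l.h (l.W e b) i).1 = q at h3 ⊢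
        rw [h3]
        simp
      obtain ⟨a1, a2⟩ := hq false
      obtain ⟨b1, b2⟩ := hq true
      rw [TGF_add, TGF_add, TGF_smul, TGF_smul, TGF_out _ _ _ _ _ hen, add_zero,
        show fl l.h (l.W e false) i = ((fl l.h (l.W e false) i).1, (fl l.h (l.W e false) i).2) from rfl,
        show fl l.h (l.W e true) i = ((fl l.h (l.W e true) i).1, (fl l.h (l.W e true) i).2) from rfl,
        TGF_single l g _ _ a2 a1, TGF_single l g _ _ b2 b1]
      obtain ⟨hs0, hs1⟩ := hs
      have h3 := abs_le.1 (hg _ a2)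
      have h4 := abs_le.1 (hg _ b2)
      rw [abs_le]
      constructor
      · nlinarith [mul_nonneg hs0 (by linarith [h4.1] : (0:ℝ) ≤ g (fl l.h (l.W e true) i).1 + C),
          mul_nonneg (by linarith : (0:ℝ) ≤ 1 - s) (by linarith [h3.1] : (0:ℝ) ≤ g (fl l.h (l.W e false) i).1 + C)]
      · nlinarith [mul_nonneg hs0 (by linarith [h4.2] : (0:ℝ) ≤ C - g (fl l.h (l.W e true) i).1),
          mul_nonneg (by linarith : (0:ℝ) ≤ 1 - s) (by linarith [h3.2] : (0:ℝ) ≤ C - g (fl l.h (l.W e false) i).1)]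
  · intro v s i hv hi
    unfold emb
    rw [if_pos hv]
    exact TGF_single l g v i hv hi

end Pool.Agent.BND
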