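import Pool.Agent.helper53.BND.SpecT

/-! # Project bnd: row TLB -/

set_option autoImplicit false

open scoped Topology
open Finset Filter

namespace Pool.Agent.BND

open Pool.Agent.CZ Pool.Agent.PV Pool.Agent.PVH

theorem TLB : TLB_stmt := by
  intro B M x r hr m
  refine ⟨fun f g => ?_, fun a f => ?_, fun f hf => ?_, ?_, fun f g c h => ?_⟩
  · unfold BS.lev
    rw [← Finset.sum_add_distrib]
    refine Finset.sum_congr rfl fun v _ => ?_
    rw [← mul_add, ← Finset.sum_add_distrib]
    rfl
  · unfold BS.lev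
    rw [Finset.mul_sum]
    refine Finset.sum_congr rfl fun v _ => ?_
    have h1 : ∑ i ∈ range ((B.L m).h v), (a • f) (x m v i) = a * ∑ i ∈ range ((B.L m).h v), f (x m v i) := by
      rw [Finset.mul_sum]
      rfl
    rw [h1]
    ring
  · unfold BS.lev
    exact Finset.sum_nonneg fun v hv =>
      mul_nonneg (hr.nn m v (Finset.mem_range.1 hv)) (Finset.sum_nonneg fun i _ => hf _)
  · unfold BS.lev
    rw [← hr.unit m]
    refine Finset.sum_congr rfl fun v _ => ?_
    simp [mul_comm]
  · unfold BS.lev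
    rw [← Finset.sum_sub_distrib]
    calc |∑ v ∈ range (B.L m).n, (r m v * ∑ i ∈ range ((B.L m).h v), f (x m v i) -
          r m v * ∑ i ∈ range ((B.L m).h v), g (x m v i))|
        ≤ ∑ v ∈ range (B.L m).n, |r m v * ∑ i ∈ range ((B.L m).h v), f (x m v i) -
          r m v * ∑ i ∈ range ((B.L m).h v), g (x m v i)| := Finset.abs_sum_le_sum_abs _ _
      _ ≤ ∑ v ∈ range (B.L m).n, ((B.L m).h v : ℝ) * r m v * c := by
        refine Finset.sum_le_sum fun v hv => ?_
        have hn := hr.nn m v (Finset.mem_range.1 hv)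
        rw [← mul_sub, ← Finset.sum_sub_distrib, abs_mul, abs_of_nonneg hn]
        have : |∑ i ∈ range ((B.L m).h v), (f (x m v i) - g (x m v i))| ≤ ((B.L m).h v : ℝ) * c := by
          calc |∑ i ∈ range ((B.L m).h v), (f (x m v i) - g (x m v i))|
              ≤ ∑ i ∈ range ((B.L m).h v), |f (x m v i) - g (x m v i)| := Finset.abs_sum_le_sum_abs _ _
            _ ≤ ∑ _i ∈ range ((B.L m).h v), c := Finset.sum_le_sum fun i _ => h _
            _ = ((B.L m).h v : ℝ) * c := by simp
        calc r m v * |∑ i ∈ range ((B.L m).h v), (f (x m v i) - g (x m v i))|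
            ≤ r m v * (((B.L m).h v : ℝ) * c) := mul_le_mul_of_nonneg_left this hn
          _ = ((B.L m).h v : ℝ) * r m v * c := by ring
      _ = c := by rw [← Finset.sum_mul, hr.unit m, one_mul]

end Pool.Agent.BND
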