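import Pool.Agent.helper53.BND.SpecT

/-! # Project bnd: row TLL -/

set_option autoImplicit false

open scoped Topology
open Finset Filter

namespace Pool.Agent.BND

open Pool.Agent.CZ Pool.Agent.PV Pool.Agent.PVH

theorem TLL (hLPX : LPX_stmt) : TLL_stmt := by
  intro B M hB x hx r k F f hf d
  have h0U : (0 : ℝ) ∈ U := ⟨le_rfl, zero_le_one⟩
  unfold BS.lev BS.av BS.ls
  refine Finset.sum_congr rfl fun v hv => ?_
  rw [Finset.mem_range] at hv
  have : ∑ i ∈ range ((B.L (k + d)).h v), f (x (k + d) v i) =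
      ∑ i ∈ range ((B.L (k + d)).h v), F (B.lp k d v 0 i) := by
    refine Finset.sum_congr rfl fun i hi => ?_
    rw [Finset.mem_range] at hi
    rw [hf, hLPX B M hB (x (k + d) v i) k d v 0 i (lt_of_lt_of_le hv (hB.lv _).nN) h0U hi
      (hx (k + d) v i hv hi)]
  rw [this]

end Pool.Agent.BND
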