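import Pool.Agent.helper53.BND.SpecT

/-! # Project bnd: row TPT -/

set_option autoImplicit false

open scoped Topology
open Finset Filter

namespace Pool.Agent.BND

open Pool.Agent.CZ Pool.Agent.PV Pool.Agent.PVH

theorem TPT (hXSU : XSU_stmt) : TPT_stmt := by
  intro B M hB
  classical
  have h0U : (0 : ℝ) ∈ U := ⟨le_rfl, zero_le_one⟩
  obtain ⟨x0, -⟩ := hXSU B M hB 0 (emb (B.L 0) 0 0 0)
    ⟨0, 0, 0, lt_of_lt_of_le (hB.lv 0).n0 (hB.lv 0).nN, h0U,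
      (hB.lv 0).pos 0 (lt_of_lt_of_le (hB.lv 0).n0 (hB.lv 0).nN), rfl⟩
  have h : ∀ m v i, ∃ x : ↥(XS B), v < (B.L m).n → i < (B.L m).h v → x.1 m = emb (B.L m) v 0 i := by
    intro m v i
    by_cases h1 : v < (B.L m).n ∧ i < (B.L m).h v
    · obtain ⟨x, hx⟩ := hXSU B M hB m (emb (B.L m) v 0 i)
        ⟨v, 0, i, lt_of_lt_of_le h1.1 (hB.lv m).nN, h0U, h1.2, rfl⟩
      exact ⟨x, fun _ _ => hx⟩
    · exact ⟨x0, fun a b => absurd ⟨a, b⟩ h1⟩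
  choose x hx using h
  exact ⟨x, hx⟩

end Pool.Agent.BND
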