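import Pool.Agent.helper53.BND.SpecT

/-! # Project bnd: row TWT -/

set_option autoImplicit false

open scoped Topology
open Finset Filter

namespace Pool.Agent.BND

open Pool.Agent.CZ Pool.Agent.PV Pool.Agent.PVH

theorem TWT : TWT_stmt := by
  intro E _ _ _ K H _ ρ g hK B M th H' hT t
  refine ⟨fun m v hv => (hT.pos m v hv t).le, fun m => ?_, fun m v hv => ?_⟩
  · have h1 := congrArg (fun y => ρ y t) (hT.unit m)
    simp only [map_sum, map_nsmul, hK.one, ContinuousMap.coe_sum, Finset.sum_apply,
      nsmul_eq_mul, ContinuousMap.one_apply] at h1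
    exact h1
  · have h1 := congrArg (fun y => ρ y t) (hT.th_eq m v hv)
    simp only [map_sum, map_nsmul, ContinuousMap.coe_sum, Finset.sum_apply, nsmul_eq_mul] at h1
    exact h1

end Pool.Agent.BND
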